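import Pool.Agent.W761.CC.Stms
import Pool.Agent.W372.CB.LA1
import Pool.Agent.W753.CB.Trans
import Pool.Agent.W135.CB.Tf
import Pool.Agent.W374.CB2.Blk

/-!
# The scattering constant is positive
-/

set_option autoImplicit false

open MeasureTheory
open scoped ENNReal

namespace Pool.Agent.W883.CC

open Pool.Agent.W761.CB Pool.Agent.W761.CC

noncomputable section

/-- the coordinates of a point of the torus -/
def rp {n : ℕ} (L : ℝ) [Fact (0 < L)] (w : Tor n L) : Fin n → ℝ :=
  fun c => (AddCircle.measurableEquivIoc L (-(L / 2)) (w c) : ℝ)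

/-- the fundamental domain -/
def dm (n : ℕ) (L : ℝ) : Set (Fin n → ℝ) := {z | ∀ c, -(L / 2) < z c ∧ z c ≤ L / 2}

lemma rp_meas {n : ℕ} (L : ℝ) [Fact (0 < L)] : Measurable (rp (n := n) L) := by
  refine measurable_pi_iff.2 fun c => ?_
  exact measurable_subtype_coe.comp
    ((AddCircle.measurableEquivIoc L (-(L / 2))).measurable.comp (measurable_pi_apply c))

lemma rp_pr {n : ℕ} {L : ℝ} [hL : Fact (0 < L)] {z : Fin n → ℝ} (hz : z ∈ dm n L) :
    rp L (pr L z) = z := by
  funext c
  have h1 := hz c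
  have h2 : z c ∈ Set.Ioc (-(L / 2)) (-(L / 2) + L) := ⟨h1.1, by linarith [h1.2]⟩
  exact AddCircle.equivIoc_coe_of_mem h2

/-- the function on the torus -/
def FF {n : ℕ} {L : ℝ} [Fact (0 < L)] (f : (Fin n → ℝ) → ℝ) (y : Tor n L) (x : Tor n L) : ℂ :=
  ((f (rp L (x - y)) : ℝ) : ℂ)

lemma FF_meas {n : ℕ} {L : ℝ} [Fact (0 < L)] {f : (Fin n → ℝ) → ℝ} (hf : Measurable f)
    (y : Tor n L) : Measurable (FF f y) := by
  have h1 : Measurable fun x : Tor n L => x - y := by
    refine measurable_pi_iff.2 fun c => ?_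
    exact (measurable_pi_apply c : Measurable fun x : Tor n L => x c).sub_const (y c)
  exact Complex.measurable_ofReal.comp (hf.comp ((rp_meas L).comp h1))

lemma FF_pt {n : ℕ} {L : ℝ} [Fact (0 < L)] (f : (Fin n → ℝ) → ℝ) (y : Tor n L) (w : Tor n L) :
    FF f y (w + y) = ((f (rp L w) : ℝ) : ℂ) := by
  unfold FF
  rw [add_sub_cancel_right]

lemma enorm_real (x : ℝ) : ‖((x : ℝ) : ℂ)‖ₑ ^ 2 = ENNReal.ofReal (x ^ 2) := by
  rw [← ofReal_norm, Complex.norm_real, Real.norm_eq_abs, ← ENNReal.ofReal_pow (abs_nonneg _),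
    sq_abs]

/-- near the boundary of the fundamental domain `f = 1` -/
lemma rp_shift {n : ℕ} {L : ℝ} [hL : Fact (0 < L)] {f : (Fin n → ℝ) → ℝ} {a : ℝ}
    (ha : 0 ≤ a) (hf : ∀ z, z ∉ cube n a → f z = 1) (haL : a + 1 < L / 2) {z : Fin n → ℝ} (hz : z ∈ dm n L)
    (c : Fin n) {h : ℝ} (h0 : 0 ≤ h) (h1 : h ≤ 1) :
    f (rp L (pr L (z + Pi.single c h))) = f (z + Pi.single c h) := by
  by_cases hc : z + Pi.single c h ∈ dm n L
  · rw [rp_pr hc]
  · have h2 : L / 2 < z c + h := by
      by_contra hcon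
      push Not at hcon
      apply hc
      intro c'
      by_cases hcc : c' = c
      · subst hcc
        rw [Pi.add_apply, Pi.single_eq_same]
        exact ⟨by linarith [(hz c').1], hcon⟩
      · rw [Pi.add_apply, Pi.single_eq_of_ne hcc, add_zero]
        exact hz c'
    have hL0 : 0 < L := hL.out
    set z' : Fin n → ℝ := z + Pi.single c h + Pi.single c (-L) with hz'
    have h3 : pr L z' = pr L (z + Pi.single c h) := by
      funext c'
      unfold pr
      rw [hz', Pi.add_apply]
      by_cases hcc : c' = c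
      · subst hcc
        rw [Pi.single_eq_same, AddCircle.coe_add, AddCircle.coe_neg, AddCircle.coe_period, neg_zero,
          add_zero]
      · rw [Pi.single_eq_of_ne hcc, add_zero]
    have h4 : z' c = z c + h - L := by
      rw [hz', Pi.add_apply, Pi.add_apply, Pi.single_eq_same, Pi.single_eq_same]
      ring
    have h5 : z' ∈ dm n L := by
      intro c'
      by_cases hcc : c' = c
      · subst hcc
        rw [h4]
        exact ⟨by linarith, by linarith [(hz c').2]⟩
      · rw [hz', Pi.add_apply, Pi.add_apply, Pi.single_eq_of_ne hcc, Pi.single_eq_of_ne hcc,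
          add_zero, add_zero]
        exact hz c'
    have h7 : f z' = 1 := by
      apply hf
      intro hcon
      have h6 := hcon c
      rw [h4, abs_le] at h6
      linarith [h6.1, (hz c).2]
    have h8 : f (z + Pi.single c h) = 1 := by
      apply hf
      intro hcon
      have h6 := hcon c
      rw [Pi.add_apply, Pi.single_eq_same, abs_le] at h6
      linarith [h6.2]
    rw [← h3, rp_pr h5, h7, h8]

/-- the kinetic energy -/
lemma kin {n : ℕ} {L : ℝ} [hL : Fact (0 < L)] (hTF : S_TF) {f : (Fin n → ℝ) → ℝ} {a : ℝ}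
    (hfm : Measurable f) (ha : 0 ≤ a) (hf : ∀ z, z ∉ cube n a → f z = 1) (haL : a + 1 < L / 2)
    (μ : ℝ)
    (y : Tor n L) :
    ken1 (ENNReal.ofReal μ) (fun _ => 0) (FF f y) ≤ ENNReal.ofReal μ * gr Set.univ f := by
  obtain ⟨_, hpr, hadd, hint, htr, _⟩ := hTF n L
  unfold ken1 gr
  simp only [zero_mul, lintegral_zero, mul_zero, add_zero]
  gcongr with c _
  rename_i k
  unfold gk
  gcongr
  set h : ℝ := (2 : ℝ)⁻¹ ^ k with hh
  have h0 : 0 ≤ h := by positivity
  have h1 : h ≤ 1 := pow_le_one₀ (by norm_num) (by norm_num)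
  have hm := FF_meas hfm y
  have hm1 : Measurable fun x : Tor n L => x + ec L c h := by
    refine measurable_pi_iff.2 fun c' => ?_
    exact (measurable_pi_apply c').add_const _
  have hG : Measurable fun x : Tor n L => ‖FF f y (x + ec L c h) - FF f y x‖ₑ ^ 2 :=
    ((hm.comp hm1).sub hm).enorm.pow_const 2
  have hm2 : Measurable fun x : Tor n L => x + y := by
    refine measurable_pi_iff.2 fun c' => ?_
    exact (measurable_pi_apply c').add_const _
  unfold d1
  rw [← htr _ hG y, hint (fun x : Tor n L => ‖FF f y (x + y + ec L c h) - FF f y (x + y)‖ₑ ^ 2)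
    (hG.comp hm2)]
  have h2 : ∫⁻ z in {z : Fin n → ℝ | ∀ c, -(L / 2) < z c ∧ z c ≤ L / 2},
      ‖FF f y (pr L z + y + ec L c h) - FF f y (pr L z + y)‖ₑ ^ 2 =
      ∫⁻ z in {z : Fin n → ℝ | ∀ c, -(L / 2) < z c ∧ z c ≤ L / 2},
        ENNReal.ofReal ((f (z + Pi.single c h) - f z) ^ 2) := by
    apply setLIntegral_congr_fun
    · have : {z : Fin n → ℝ | ∀ c, -(L / 2) < z c ∧ z c ≤ L / 2} =
          Set.pi Set.univ fun _ => Set.Ioc (-(L / 2)) (L / 2) := by
        ext z
        simp [Set.mem_pi]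
      rw [this]
      exact MeasurableSet.univ_pi fun _ => measurableSet_Ioc
    · intro z hz
      have hz' : z ∈ dm n L := hz
      beta_reduce
      have e1 : pr L z + y + ec L c h = pr L (z + Pi.single c h) + y := by
        rw [hadd]
        unfold ec
        abel
      rw [e1, FF_pt, FF_pt, rp_shift ha hf haL hz' c h0 h1, rp_pr hz', ← Complex.ofReal_sub,
        enorm_real]
  have h3 := h2.le
  refine le_trans h3 ?_
  apply lintegral_mono_set
  intro z _
  exact ⟨trivial, trivial⟩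

/-- the potential energy -/
lemma pot {n : ℕ} {L : ℝ} [hL : Fact (0 < L)] (hTF : S_TF) {f : (Fin n → ℝ) → ℝ}
    (hfm : Measurable f) (v : ℝ → ℝ≥0∞) (hv : Measurable v) (y : Tor n L) :
    ∫⁻ x, v (tdist x y) * ‖FF f y x‖ₑ ^ 2 ≤ ∫⁻ z, v (el z) * ENNReal.ofReal (f z ^ 2) := by
  obtain ⟨_, hpr, hadd, hint, htr, hnorm, _, hvm⟩ := hTF n L
  have hm := FF_meas hfm y
  have hG : Measurable fun x : Tor n L => v (tdist x y) * ‖FF f y x‖ₑ ^ 2 :=
    (((hvm v hv).1).comp (measurable_id.prodMk measurable_const)).mul (hm.enorm.pow_const 2)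
  have hm2 : Measurable fun x : Tor n L => x + y := by
    refine measurable_pi_iff.2 fun c' => ?_
    exact (measurable_pi_apply c').add_const _
  rw [← htr _ hG y, hint (fun x : Tor n L => v (tdist (x + y) y) * ‖FF f y (x + y)‖ₑ ^ 2)
    (hG.comp hm2)]
  have h2 : ∫⁻ z in {z : Fin n → ℝ | ∀ c, -(L / 2) < z c ∧ z c ≤ L / 2},
      v (tdist (pr L z + y) y) * ‖FF f y (pr L z + y)‖ₑ ^ 2 =
      ∫⁻ z in {z : Fin n → ℝ | ∀ c, -(L / 2) < z c ∧ z c ≤ L / 2},
        v (el z) * ENNReal.ofReal (f z ^ 2) := by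
    apply setLIntegral_congr_fun
    · have : {z : Fin n → ℝ | ∀ c, -(L / 2) < z c ∧ z c ≤ L / 2} =
          Set.pi Set.univ fun _ => Set.Ioc (-(L / 2)) (L / 2) := by
        ext z
        simp [Set.mem_pi]
      rw [this]
      exact MeasurableSet.univ_pi fun _ => measurableSet_Ioc
    · intro z hz
      have hz' : z ∈ dm n L := hz
      beta_reduce
      rw [FF_pt, rp_pr hz', enorm_real]
      congr 2
      unfold tdist el
      congr 1
      refine Finset.sum_congr rfl fun c _ => ?_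
      rw [Pi.add_apply, add_sub_cancel_right,
        hnorm z (fun c => abs_le.2 ⟨by linarith [(hz' c).1], (hz' c).2⟩) c, sq_abs]
  refine le_trans h2.le ?_
  exact setLIntegral_le_lintegral _ _

/-- the mass in the block `0` -/
lemma mass {n : ℕ} {L : ℝ} [hL : Fact (0 < L)] (hTF : S_TF) (hBLK : S_BLK) {f : (Fin n → ℝ) → ℝ}
    {a b : ℝ} (hfm : Measurable f) (hf : ∀ z, z ∉ cube n a → f z = 1) (ha : 0 ≤ a) (hb : 0 < b)
    (hLb : L = (8 : ℕ) * b) :
    ENNReal.ofReal (b ^ n - (2 * a) ^ n) ≤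
      ∫⁻ x in blk n L b (fun _ => 0), ‖FF f (pr L fun _ => b / 2) x‖ₑ ^ 2 := by
  obtain ⟨_, hpr, hadd, hint, htr, hnorm, _, hvm⟩ := hTF n L
  obtain ⟨hbm, _⟩ := hBLK n L b 8 (by norm_num) hLb
  set y : Tor n L := pr L fun _ => b / 2 with hy
  have hm := FF_meas hfm y
  have hbm0 := hbm (fun _ => 0)
  have hG : Measurable fun x : Tor n L =>
      (blk n L b (fun _ => 0)).indicator (fun x => ‖FF f y x‖ₑ ^ 2) x :=
    (hm.enorm.pow_const 2).indicator hbm0
  have hm2 : Measurable fun x : Tor n L => x + y := by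
    refine measurable_pi_iff.2 fun c' => ?_
    exact (measurable_pi_apply c').add_const _
  rw [← lintegral_indicator hbm0, ← htr _ hG y, hint (fun x : Tor n L =>
    (blk n L b (fun _ => 0)).indicator (fun x => ‖FF f y x‖ₑ ^ 2) (x + y)) (hG.comp hm2)]
  set S : Set (Fin n → ℝ) := Set.pi Set.univ fun _ => Set.Ico (-(b / 2)) (b / 2) with hS
  have hSm : MeasurableSet S := MeasurableSet.univ_pi fun _ => measurableSet_Ico
  have hcub : cube n a = Set.Icc (fun _ => -a) (fun _ => a) := by
    ext z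
    simp only [cube, Set.mem_Icc, Pi.le_def, abs_le, Set.mem_ofPred_eq]
    exact forall_and
  have hcm : MeasurableSet (cube n a) := by
    rw [hcub]
    exact measurableSet_Icc
  have hL' : L = 8 * b := by
    rw [hLb]
    norm_num
  have h1 : volume (S \ cube n a) ≤ ∫⁻ z in {z : Fin n → ℝ | ∀ c, -(L / 2) < z c ∧ z c ≤ L / 2},
      (blk n L b (fun _ => 0)).indicator (fun x => ‖FF f y x‖ₑ ^ 2) (pr L z + y) := by
    have h2 : volume (S \ cube n a) = ∫⁻ _z in S \ cube n a, 1 := by
      rw [setLIntegral_one]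
    rw [h2]
    have h3 : S \ cube n a ⊆ {z : Fin n → ℝ | ∀ c, -(L / 2) < z c ∧ z c ≤ L / 2} := by
      intro z hz c
      have h4 := hz.1 c trivial
      exact ⟨by linarith [h4.1], by linarith [h4.2]⟩
    refine le_trans ?_ (lintegral_mono_set h3)
    refine setLIntegral_mono' (hSm.diff hcm) fun z hz => ?_
    have hz1 : z ∈ dm n L := h3 hz
    have hz2 : pr L z + y ∈ blk n L b (fun _ => 0) := by
      intro c
      have h4 := hz.1 c trivial
      refine ⟨z c + b / 2, ?_, ?_, ?_⟩
      · push_cast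
        linarith [h4.1]
      · push_cast
        linarith [h4.2]
      · rw [AddCircle.coe_add]
        rfl
    rw [Set.indicator_of_mem hz2, FF_pt, rp_pr hz1, hf z hz.2, enorm_real]
    simp
  refine le_trans ?_ h1
  refine le_trans ?_ (le_measure_sdiff)
  have h5 : volume S = ENNReal.ofReal (b ^ n) := by
    rw [hS, volume_pi_pi]
    simp only [Real.volume_Ico, Finset.prod_const, Finset.card_univ, Fintype.card_fin]
    rw [← ENNReal.ofReal_pow (by linarith)]
    congr 2
    ring
  have h6 : volume (cube n a) = ENNReal.ofReal ((2 * a) ^ n) := by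
    rw [hcub, Real.volume_Icc_pi]
    simp only [Finset.prod_const, Finset.card_univ, Fintype.card_fin]
    rw [← ENNReal.ofReal_pow (by linarith)]
    congr 2
    ring
  rw [h5, h6, ENNReal.ofReal_sub _ (by positivity)]

/-- `S_GPOS` -/
theorem gpos : S_GPOS := by
  intro n μ v hn hμ hv hv0 hv1
  have hTF : S_TF := Pool.Agent.W135.CB.proof_tf
  have hBLK : S_BLK := Pool.Agent.W374.CB2.Blk.blk hTF
  have hLA : S_LA1 := Pool.Agent.W372.CB.main hTF hBLK
  have hTR : S_TRANS := Pool.Agent.W753.CB.main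
  have hn3 : (3 : ℝ) ≤ n := by exact_mod_cast hn
  obtain ⟨CA, b₀, hCA, hb₀, hmain⟩ := hLA n 2 (n * 2 ^ n / μ) v (by omega) (by norm_num)
    (by linarith) (by positivity) hv hv0
  -- lower bound
  have hlow : ∀ f : (Fin n → ℝ) → ℝ, Adm f →
      ENNReal.ofReal (1 / (4 * (CA + 1))) ≤ QD μ v Set.univ f := by
    intro f hf
    obtain ⟨hbm, ⟨a', ha'⟩⟩ := hf
    obtain ⟨hfm, hfb⟩ := hbm
    set a : ℝ := max a' 0 with ha
    have ha0 : 0 ≤ a := le_max_right _ _
    have hfa : ∀ z, z ∉ cube n a → f z = 1 := by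
      intro z hz
      apply ha'
      intro hc
      apply hz
      intro c
      exact (hc c).trans (le_max_left _ _)
    set b : ℝ := max b₀ (4 * a + 4) with hb
    have hb1 : b₀ ≤ b := le_max_left _ _
    have hb2 : 4 * a + 4 ≤ b := le_max_right _ _
    have hb0 : 0 < b := by linarith
    have hL0 : 0 < (8 : ℕ) * b := by
      push_cast
      linarith
    have : Fact (0 < (8 : ℕ) * b) := ⟨hL0⟩
    set L : ℝ := (8 : ℕ) * b with hL
    have hL' : L = 8 * b := by
      rw [hL]
      norm_num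
    set y : Tor n L := pr L fun _ => b / 2 with hy
    have hPO := hTR n L μ (fun _ => 0) hμ
    have h1 := hmain L b 8 (ENNReal.ofReal μ) (fun _ => 0) hb1 hL le_rfl measurable_const hPO
      (FF f y) (FF_meas hfm y) (by
        obtain ⟨B, hB⟩ := hfb
        refine ⟨B, fun x => ?_⟩
        unfold FF
        rw [Complex.norm_real, Real.norm_eq_abs]
        exact hB _) {fun _ => 0} (fun _ => y) (by
        intro i hi
        rw [Finset.mem_singleton] at hi
        subst hi
        intro c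
        have e0 : (((0 : Fin 8) : ℕ) : ℝ) = 0 := by simp
        refine ⟨b / 2, ?_, ?_, rfl⟩
        · rw [e0]
          linarith
        · rw [e0]
          linarith)
    rw [Finset.sum_singleton, Finset.sum_singleton] at h1
    have h2 := mass hTF hBLK hfm hfa ha0 hb0 hL
    have h3 := kin hTF hfm ha0 hfa (by linarith) μ y
    have h4 := pot hTF hfm v hv y
    have h5 : ENNReal.ofReal (b ^ n - (2 * a) ^ n) ≤
        ENNReal.ofReal (CA * b ^ n) * (ENNReal.ofReal μ * gr Set.univ f +
          ∫⁻ z, v (el z) * ENNReal.ofReal (f z ^ 2)) := by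
      refine le_trans h2 (le_trans h1 ?_)
      gcongr
    have h6 : ENNReal.ofReal μ * gr Set.univ f + ∫⁻ z, v (el z) * ENNReal.ofReal (f z ^ 2) ≤
        2 * QD μ v Set.univ f := by
      unfold QD
      rw [setLIntegral_univ, mul_add, ← mul_assoc 2 2⁻¹, ENNReal.mul_inv_cancel (by norm_num)
        (by norm_num), one_mul]
      refine add_le_add ?_ le_rfl
      rw [two_mul]
      exact le_self_add
    -- the numbers
    have h7 : (2 * a) ^ n ≤ b ^ n / 2 := by
      have e1 : 2 * a ≤ b / 2 := by linarith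
      have e2 : (2 * a) ^ n ≤ (b / 2) ^ n := pow_le_pow_left₀ (by linarith) e1 n
      have e3 : (b / 2) ^ n = b ^ n / 2 ^ n := div_pow _ _ _
      have e4 : (2 : ℝ) ≤ 2 ^ n := by
        calc (2 : ℝ) = 2 ^ 1 := (pow_one _).symm
          _ ≤ 2 ^ n := pow_le_pow_right₀ (by norm_num) (by omega)
      have e5 : b ^ n / 2 ^ n ≤ b ^ n / 2 :=
        div_le_div_of_nonneg_left (by positivity) (by norm_num) e4
      linarith
    have hbn : 0 < b ^ n := by positivity
    by_contra hcon
    push Not at hcon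
    have h8 : QD μ v Set.univ f ≠ ⊤ := ne_top_of_lt hcon
    set q : ℝ := (QD μ v Set.univ f).toReal with hq
    have hqe : QD μ v Set.univ f = ENNReal.ofReal q := (ENNReal.ofReal_toReal h8).symm
    have hq0 : 0 ≤ q := ENNReal.toReal_nonneg
    have h9 : q < 1 / (4 * (CA + 1)) := by
      rw [hqe] at hcon
      exact (ENNReal.ofReal_lt_ofReal_iff (by positivity)).1 hcon
    have h10 : ENNReal.ofReal (b ^ n / 2) ≤ ENNReal.ofReal (CA * b ^ n * (2 * q)) := by
      calc ENNReal.ofReal (b ^ n / 2) ≤ ENNReal.ofReal (b ^ n - (2 * a) ^ n) :=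
            ENNReal.ofReal_le_ofReal (by linarith)
        _ ≤ _ := h5
        _ ≤ ENNReal.ofReal (CA * b ^ n) * (2 * QD μ v Set.univ f) := by gcongr
        _ = ENNReal.ofReal (CA * b ^ n * (2 * q)) := by
            have hCb : 0 ≤ CA * b ^ n := mul_nonneg hCA hbn.le
            rw [hqe, ENNReal.ofReal_mul hCb, ENNReal.ofReal_mul (by norm_num : (0 : ℝ) ≤ 2)]
            norm_num
    have h11 : b ^ n / 2 ≤ CA * b ^ n * (2 * q) :=
      (ENNReal.ofReal_le_ofReal_iff (by positivity)).1 h10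
    have h12 : CA * q * 4 < 1 := by
      rw [lt_div_iff₀ (by positivity)] at h9
      nlinarith
    nlinarith
  -- finiteness
  have hone : Adm (fun _ : Fin n → ℝ => (1 : ℝ)) :=
    { meas := measurable_const
      bdd := ⟨1, fun _ => by simp⟩
      out := ⟨0, fun _ _ => rfl⟩ }
  have hfin : QD μ v Set.univ (fun _ : Fin n → ℝ => (1 : ℝ)) ≠ ⊤ := by
    unfold QD gr gk
    simp only [sub_self, ne_eq, OfNat.ofNat_ne_zero, not_false_eq_true, zero_pow,
      ENNReal.ofReal_zero, lintegral_zero, mul_zero, ENNReal.iSup_zero, Finset.sum_const_zero,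
      zero_add, one_pow, ENNReal.ofReal_one, mul_one, setLIntegral_univ]
    exact ENNReal.mul_ne_top (by norm_num) hv1
  unfold scat
  have hinf1 : ENNReal.ofReal (1 / (4 * (CA + 1))) ≤
      ⨅ f ∈ {f : (Fin n → ℝ) → ℝ | Adm f}, QD μ v Set.univ f := by
    refine le_iInf₂ fun f hf => hlow f hf
  have hinf2 : (⨅ f ∈ {f : (Fin n → ℝ) → ℝ | Adm f}, QD μ v Set.univ f) ≠ ⊤ := by
    refine ne_top_of_le_ne_top hfin ?_
    exact iInf₂_le _ hone
  have hpos : (0 : ℝ≥0∞) < ENNReal.ofReal (1 / (4 * (CA + 1))) := by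
    rw [ENNReal.ofReal_pos]
    positivity
  have := ENNReal.toReal_pos (lt_of_lt_of_le hpos hinf1).ne' hinf2
  linarith

end

end Pool.Agent.W883.CC
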